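import Pool.Agent.Work.MP_3d425c_gt.Dn.Defs
import Pool.Agent.Work.MP_3d425c_gt.Nv.Mod

/-! The universal cover of an ordered triangulation, with the action of the edge-path group. -/

namespace Pool.Agent.Work.MP_3d425c_gt.Dn
open Set Relation Pool.Agent.Work.MP_3d425c_gt.Md

/-- cells of the cover -/
@[ext] structure Lift (G X : Type) : Type where
  g : G
  x : X

instance {G X : Type} [Group G] : MulAction G (Lift G X) where
  smul a p := ⟨a * p.g, p.x⟩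
  one_smul _ := Lift.ext (one_mul _) rfl
  mul_smul _ _ _ := Lift.ext (mul_assoc _ _ _) rfl

theorem Lift.smul_def {G X : Type} [Group G] (a : G) (p : Lift G X) :
    a • p = ⟨a * p.g, p.x⟩ := rfl

variable {X0 X1 X2 X3 : Type} (K : Cx X0 X1 X2 X3)

namespace Cx

/-- the group on the edges -/
abbrev Gam : Type := PresentedGroup K.rels

theorem cd (x) : K.d2 (K.d3 x 1) 0 = K.d2 (K.d3 x 0) 0 := K.s3 x 0 0 le_rfl
theorem bd (x) : K.d2 (K.d3 x 2) 0 = K.d2 (K.d3 x 0) 1 := K.s3 x 0 1 (by decide)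
theorem bc (x) : K.d2 (K.d3 x 3) 0 = K.d2 (K.d3 x 0) 2 := K.s3 x 0 2 (by decide)
theorem ad (x) : K.d2 (K.d3 x 2) 1 = K.d2 (K.d3 x 1) 1 := K.s3 x 1 1 le_rfl
theorem ac (x) : K.d2 (K.d3 x 3) 1 = K.d2 (K.d3 x 1) 2 := K.s3 x 1 2 (by decide)
theorem ab (x) : K.d2 (K.d3 x 3) 2 = K.d2 (K.d3 x 2) 2 := K.s3 x 2 2 le_rfl
theorem vc (f) : K.d1 (K.d2 f 1) 0 = K.d1 (K.d2 f 0) 0 := K.s2 f 0 0 le_rfl
theorem vb (f) : K.d1 (K.d2 f 2) 0 = K.d1 (K.d2 f 0) 1 := K.s2 f 0 1 (by decide)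
theorem va (f) : K.d1 (K.d2 f 2) 1 = K.d1 (K.d2 f 1) 1 := K.s2 f 1 1 le_rfl

section Coc
variable {G : Type} [Group G] (c : X1 → G)

def sh1 (e : X1) (i : Fin 2) : G := if i = 0 then c e else 1
def sh2 (f : X2) (i : Fin 3) : G := if i = 0 then c (K.d2 f 2) else 1
def sh3 (x : X3) (i : Fin 4) : G := if i = 0 then c (K.d2 (K.d3 x 3) 2) else 1

def u1 (p : Lift G X1) (i : Fin 2) : Lift G X0 := ⟨p.g * sh1 c p.x i, K.d1 p.x i⟩
def u2 (p : Lift G X2) (i : Fin 3) : Lift G X1 := ⟨p.g * K.sh2 c p.x i, K.d2 p.x i⟩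
def u3 (p : Lift G X3) (i : Fin 4) : Lift G X2 := ⟨p.g * K.sh3 c p.x i, K.d3 p.x i⟩

/-- the cocycle condition -/
def Coc : Prop := ∀ f, c (K.d2 f 1) = c (K.d2 f 2) * c (K.d2 f 0)

variable {K c}

theorem sh_s2 (hc : K.Coc c) (f) (i j : Fin 2) (h : i ≤ j) :
    K.sh2 c f j.succ * sh1 c (K.d2 f j.succ) i =
      K.sh2 c f i.castSucc * sh1 c (K.d2 f i.castSucc) j := by
  fin_cases i <;> fin_cases j
  · simpa [sh1, sh2] using hc f
  · simp [sh1, sh2]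
  · simp at h
  · simp [sh1, sh2]

theorem sh_s3 (hc : K.Coc c) (x) (i j : Fin 3) (h : i ≤ j) :
    K.sh3 c x j.succ * K.sh2 c (K.d3 x j.succ) i =
      K.sh3 c x i.castSucc * K.sh2 c (K.d3 x i.castSucc) j := by
  fin_cases i <;> fin_cases j
  · simpa [sh2, sh3, ← K.ac, ← K.bc] using hc (K.d3 x 3)
  · simp [sh2, sh3, K.ab]
  · simp [sh2, sh3]
  · simp at h
  · simp [sh2, sh3]
  · simp [sh2, sh3]
  · simp at h
  · simp at h
  · simp [sh2, sh3]

theorem u_s2 (hc : K.Coc c) (f) (i j : Fin 2) (h : i ≤ j) :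
    K.u1 c (K.u2 c f j.succ) i = K.u1 c (K.u2 c f i.castSucc) j :=
  Lift.ext (by simp only [u1, u2, mul_assoc, sh_s2 hc _ i j h]) (K.s2 _ i j h)

theorem u_s3 (hc : K.Coc c) (x) (i j : Fin 3) (h : i ≤ j) :
    K.u2 c (K.u3 c x j.succ) i = K.u2 c (K.u3 c x i.castSucc) j :=
  Lift.ext (by simp only [u2, u3, mul_assoc, sh_s3 hc _ i j h]) (K.s3 _ i j h)

theorem u_two (f : Lift G X2) : ∃ p q : Lift G X3 × Fin 4, p ≠ q ∧
    ∀ r : Lift G X3 × Fin 4, K.u3 c r.1 r.2 = f ↔ r = p ∨ r = q := by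
  obtain ⟨p, q, hpq, h⟩ := K.two f.x
  refine ⟨(⟨f.g * (K.sh3 c p.1 p.2)⁻¹, p.1⟩, p.2), (⟨f.g * (K.sh3 c q.1 q.2)⁻¹, q.1⟩, q.2),
    fun e => hpq (Prod.ext (congrArg (fun r => r.1.x) e) (Prod.ext_iff.1 e).2), ?_⟩
  rintro ⟨⟨g, x⟩, k⟩
  constructor
  · rintro rfl
    rcases (h (x, k)).1 rfl with rfl | rfl
    · left; simp [u3]
    · right; simp [u3]
  · rintro (e | e)
    · rw [e]; exact Lift.ext (by simp [u3]) ((h p).2 (Or.inl rfl))
    · rw [e]; exact Lift.ext (by simp [u3]) ((h q).2 (Or.inr rfl))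

theorem u_link (hc : K.Coc c) (p q : Lift G X2 × Fin 3) (h : K.u2 c p.1 p.2 = K.u2 c q.1 q.2) :
    EqvGen (fun p q => ∃ x, ∃ i j : Fin 3,
      i ≤ j ∧ p = (K.u3 c x j.succ, i) ∧ q = (K.u3 c x i.castSucc, j)) p q := by
  have key : ∀ a b : X2 × Fin 3, EqvGen (fun p q => ∃ x, ∃ i j : Fin 3,
      i ≤ j ∧ p = (K.d3 x j.succ, i) ∧ q = (K.d3 x i.castSucc, j)) a b → ∀ γ : G,
      EqvGen (fun p q : Lift G X2 × Fin 3 => ∃ x, ∃ i j : Fin 3,
        i ≤ j ∧ p = (K.u3 c x j.succ, i) ∧ q = (K.u3 c x i.castSucc, j))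
        (⟨γ * (K.sh2 c a.1 a.2)⁻¹, a.1⟩, a.2) (⟨γ * (K.sh2 c b.1 b.2)⁻¹, b.1⟩, b.2) := by
    intro a b e γ
    induction e with
    | rel a b k =>
      obtain ⟨x, i, j, hij, rfl, rfl⟩ := k
      refine .rel _ _ ⟨⟨γ * (K.sh3 c x j.succ * K.sh2 c (K.d3 x j.succ) i)⁻¹, x⟩, i, j, hij,
        Prod.ext (Lift.ext ?_ rfl) rfl, Prod.ext (Lift.ext ?_ rfl) rfl⟩
      · simp only [u3]; group
      · simp only [u3, sh_s3 hc _ i j hij]; group
    | refl a => exact .refl _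
    | symm a b _ ih => exact .symm _ _ ih
    | trans a b d _ _ i j => exact .trans _ _ _ i j
  have h1 : p.1.g * K.sh2 c p.1.x p.2 = q.1.g * K.sh2 c q.1.x q.2 := congrArg Lift.g h
  have := key (p.1.x, p.2) (q.1.x, q.2) (K.link _ _ (congrArg Lift.x h))
    (p.1.g * K.sh2 c p.1.x p.2)
  rw [mul_inv_cancel_right, h1, mul_inv_cancel_right] at this
  exact this

theorem u_star (hc : K.Coc c) (p q : Lift G X1 × Fin 2) (h : K.u1 c p.1 p.2 = K.u1 c q.1 q.2) :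
    EqvGen (fun p q => ∃ f, ∃ i j : Fin 2,
      i ≤ j ∧ p = (K.u2 c f j.succ, i) ∧ q = (K.u2 c f i.castSucc, j)) p q := by
  have key : ∀ a b : X1 × Fin 2, EqvGen (fun p q => ∃ f, ∃ i j : Fin 2,
      i ≤ j ∧ p = (K.d2 f j.succ, i) ∧ q = (K.d2 f i.castSucc, j)) a b → ∀ γ : G,
      EqvGen (fun p q : Lift G X1 × Fin 2 => ∃ f, ∃ i j : Fin 2,
        i ≤ j ∧ p = (K.u2 c f j.succ, i) ∧ q = (K.u2 c f i.castSucc, j))
        (⟨γ * (sh1 c a.1 a.2)⁻¹, a.1⟩, a.2) (⟨γ * (sh1 c b.1 b.2)⁻¹, b.1⟩, b.2) := by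
    intro a b e γ
    induction e with
    | rel a b k =>
      obtain ⟨x, i, j, hij, rfl, rfl⟩ := k
      refine .rel _ _ ⟨⟨γ * (K.sh2 c x j.succ * sh1 c (K.d2 x j.succ) i)⁻¹, x⟩, i, j, hij,
        Prod.ext (Lift.ext ?_ rfl) rfl, Prod.ext (Lift.ext ?_ rfl) rfl⟩
      · simp only [u2]; group
      · simp only [u2, sh_s2 hc _ i j hij]; group
    | refl a => exact .refl _
    | symm a b _ ih => exact .symm _ _ ih
    | trans a b d _ _ i j => exact .trans _ _ _ i j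
  have h1 : p.1.g * sh1 c p.1.x p.2 = q.1.g * sh1 c q.1.x q.2 := congrArg Lift.g h
  have := key (p.1.x, p.2) (q.1.x, q.2) (K.star _ _ (congrArg Lift.x h))
    (p.1.g * sh1 c p.1.x p.2)
  rw [mul_inv_cancel_right, h1, mul_inv_cancel_right] at this
  exact this

theorem u_equ (hc : K.Coc c) (p q : Lift G X2)
    (h : K.u1 c (K.u2 c p 2) 0 = K.u1 c (K.u2 c q 2) 0) : EqvGen (fun f f' => ∃ x,
      (f = K.u3 c x 2 ∧ f' = K.u3 c x 3) ∨ (f = K.u3 c x 0 ∧ f' = K.u3 c x 1)) p q := by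
  have key : ∀ a b : X2, EqvGen (fun f f' => ∃ x,
      (f = K.d3 x 2 ∧ f' = K.d3 x 3) ∨ (f = K.d3 x 0 ∧ f' = K.d3 x 1)) a b → ∀ γ : G,
      EqvGen (fun f f' : Lift G X2 => ∃ x,
        (f = K.u3 c x 2 ∧ f' = K.u3 c x 3) ∨ (f = K.u3 c x 0 ∧ f' = K.u3 c x 1))
        ⟨γ * (c (K.d2 a 2))⁻¹, a⟩ ⟨γ * (c (K.d2 b 2))⁻¹, b⟩ := by
    intro a b e γ
    induction e with
    | rel a b k =>
      obtain ⟨x, ⟨rfl, rfl⟩ | ⟨rfl, rfl⟩⟩ := k
      · exact .rel _ _ ⟨⟨γ * (c (K.d2 (K.d3 x 3) 2))⁻¹, x⟩,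
          Or.inl ⟨Lift.ext (by simp [u3, sh3, K.ab]) rfl, Lift.ext (by simp [u3, sh3]) rfl⟩⟩
      · refine .rel _ _ ⟨⟨γ * (c (K.d2 (K.d3 x 1) 2))⁻¹, x⟩,
          Or.inr ⟨Lift.ext ?_ rfl, Lift.ext (by simp [u3, sh3]) rfl⟩⟩
        simp only [u3, sh3, if_true, ← K.ac, ← K.bc, hc (K.d3 x 3)]
        group
    | refl a => exact .refl _
    | symm a b _ ih => exact .symm _ _ ih
    | trans a b d _ _ i j => exact .trans _ _ _ i j
  have h1 : p.g * c (K.d2 p.x 2) = q.g * c (K.d2 q.x 2) := by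
    simpa [u1, u2, sh1, sh2] using congrArg Lift.g h
  have := key p.x q.x (K.equ _ _ (congrArg Lift.x h)) (p.g * c (K.d2 p.x 2))
  rw [mul_inv_cancel_right, h1, mul_inv_cancel_right] at this
  exact this

theorem u_cyc (e : Lift G X1) : ∃ g : G, ReflTransGen
    (fun u v => ∃ e', K.u1 c e' 1 = u ∧ K.u1 c e' 0 = v) (K.u1 c e 0) (g • K.u1 c e 1) := by
  have key : ∀ u w : X0, ReflTransGen (fun u w => ∃ e, K.d1 e 1 = u ∧ K.d1 e 0 = w) u w →
      ∀ γ : G, ∃ γ' : G, ReflTransGen (fun u v => ∃ e', K.u1 c e' 1 = u ∧ K.u1 c e' 0 = v)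
        ⟨γ, u⟩ ⟨γ', w⟩ := by
    intro u w h γ
    induction h with
    | refl => exact ⟨γ, .refl⟩
    | tail _ k ih =>
      obtain ⟨e, rfl, rfl⟩ := k
      obtain ⟨γ', h'⟩ := ih
      exact ⟨γ' * c e, h'.tail ⟨⟨γ', e⟩, Lift.ext (by simp [u1, sh1]) rfl,
        Lift.ext (by simp [u1, sh1]) rfl⟩⟩
  obtain ⟨γ', h⟩ := key _ _ (K.cyc (K.d1 e.x 0) (K.d1 e.x 1)) (K.u1 c e 0).g
  refine ⟨γ' * (K.u1 c e 1).g⁻¹, ?_⟩
  rw [Lift.smul_def, inv_mul_cancel_right]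
  exact h

theorem u_conn (hc : K.Coc c) (h0 : ∀ P : Lift G X0 → Prop,
    (∀ e i j, P (K.u1 c e i) → P (K.u1 c e j)) → ∀ u w, P u → P w) (x y : Lift G X3) :
    EqvGen (fun x y => ∃ k l, K.u3 c x k = K.u3 c y l) x y := by
  let P3 : Lift G X3 → Prop := EqvGen (fun x y => ∃ k l, K.u3 c x k = K.u3 c y l) x
  let P2 : Lift G X2 → Prop := fun f => ∃ z k, K.u3 c z k = f ∧ P3 z
  let P1 : Lift G X1 → Prop := fun e => ∃ f i, K.u2 c f i = e ∧ P2 f
  let P0 : Lift G X0 → Prop := fun v => ∃ e i, K.u1 c e i = v ∧ P1 e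
  have a : ∀ z k, P2 (K.u3 c z k) → P3 z := by
    rintro z k ⟨z', k', e, h⟩
    exact .trans _ _ _ h (.rel _ _ ⟨k', k, e⟩)
  have b : ∀ f i, P1 (K.u2 c f i) → P2 f := by
    rintro f i ⟨f', i', e, h⟩
    have : ∀ p q : Lift G X2 × Fin 3, EqvGen (fun p q => ∃ x, ∃ i j : Fin 3,
        i ≤ j ∧ p = (K.u3 c x j.succ, i) ∧ q = (K.u3 c x i.castSucc, j)) p q →
        (P2 p.1 ↔ P2 q.1) := by
      intro p q k
      induction k with
      | rel p q k =>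
        obtain ⟨z, i, j, -, rfl, rfl⟩ := k
        exact ⟨fun h => ⟨z, _, rfl, a z _ h⟩, fun h => ⟨z, _, rfl, a z _ h⟩⟩
      | refl p => rfl
      | symm p q _ ih => exact ih.symm
      | trans p q r _ _ i j => exact i.trans j
    exact (this _ _ (u_link hc (f', i') (f, i) e)).1 h
  have d : ∀ e i, P0 (K.u1 c e i) → P1 e := by
    rintro f i ⟨f', i', e, h⟩
    have : ∀ p q : Lift G X1 × Fin 2, EqvGen (fun p q => ∃ f, ∃ i j : Fin 2,
        i ≤ j ∧ p = (K.u2 c f j.succ, i) ∧ q = (K.u2 c f i.castSucc, j)) p q →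
        (P1 p.1 ↔ P1 q.1) := by
      intro p q k
      induction k with
      | rel p q k =>
        obtain ⟨z, i, j, -, rfl, rfl⟩ := k
        exact ⟨fun h => ⟨z, _, rfl, b z _ h⟩, fun h => ⟨z, _, rfl, b z _ h⟩⟩
      | refl p => rfl
      | symm p q _ ih => exact ih.symm
      | trans p q r _ _ i j => exact i.trans j
    exact (this _ _ (u_star hc (f', i') (f, i) e)).1 h
  exact a y 0 (b _ 0 (d _ 0 (h0 P0 (fun e i j h => ⟨e, j, rfl, d e i h⟩) _ _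
    ⟨_, 0, rfl, _, 0, rfl, x, 0, rfl, .refl x⟩)))

theorem u_ul (Γ : Type) [Group Γ] (z : Lift G X2 → Γ)
    (h : ∀ x, z (K.u3 c x 2) = z (K.u3 c x 1) * z (K.u3 c x 3)) :
    ∃ s : Lift G X1 → Γ, ∀ f, z f = s (K.u2 c f 1) * (s (K.u2 c f 2))⁻¹ := by
  have : ∀ g : G, ∃ s : X1 → Γ, ∀ f, z ⟨g, f⟩ = s (K.d2 f 1) * (s (K.d2 f 2))⁻¹ := fun g =>
    K.ul Γ (fun f => z ⟨g, f⟩) fun x => by simpa [u3, sh3] using h ⟨g, x⟩
  choose s hs using this
  exact ⟨fun e => s e.g e.x, fun f => by simpa [u2, sh2] using hs f.g f.x⟩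

theorem u_ll (hc : K.Coc c) (Γ : Type) [Group Γ] (z : Lift G X2 → Γ)
    (h : ∀ x, z (K.u3 c x 1) = z (K.u3 c x 2) * z (K.u3 c x 0)) :
    ∃ s : Lift G X1 → Γ, ∀ f, z f = s (K.u2 c f 1) * (s (K.u2 c f 0))⁻¹ := by
  have : ∀ g : G, ∃ s : X1 → Γ, ∀ f, z ⟨g * (c (K.d2 f 1))⁻¹, f⟩ =
      s (K.d2 f 1) * (s (K.d2 f 0))⁻¹ := fun g =>
    K.ll Γ (fun f => z ⟨g * (c (K.d2 f 1))⁻¹, f⟩) fun x => by
      have e := h ⟨g * (c (K.d2 (K.d3 x 2) 1))⁻¹, x⟩
      have e0 : g * (c (K.d2 (K.d3 x 2) 1))⁻¹ * c (K.d2 (K.d3 x 3) 2) =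
          g * (c (K.d2 (K.d3 x 0) 1))⁻¹ := by
        rw [hc (K.d3 x 2), K.ab, K.bd]; group
      simp only [u3, sh3, if_true, e0] at e
      simpa [K.ad] using e
  choose s hs using this
  refine ⟨fun e => s (e.g * c e.x) e.x, fun f => ?_⟩
  have := hs (f.g * c (K.d2 f.x 1)) f.x
  rw [mul_inv_cancel_right] at this
  simpa [u2, sh2, hc f.x, mul_assoc] using this

end Coc

section Pi

variable {K}

theorem Path.trans {u w z : X0} {g h : K.Gam} (a : K.Path u g w) (b : K.Path w h z) :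
    K.Path u (g * h) z := by
  induction b with
  | nil => rwa [mul_one]
  | fwd e _ ih => rw [← mul_assoc]; exact .fwd e ih
  | bwd e _ ih => rw [← mul_assoc]; exact .bwd e ih

theorem Path.symm {u w : X0} {g : K.Gam} (a : K.Path u g w) : K.Path w g⁻¹ u := by
  induction a with
  | nil => rw [inv_one]; exact .nil
  | fwd e _ ih =>
    rw [mul_inv_rev]
    exact (by simpa using Path.bwd (K := K) e .nil : K.Path _ (PresentedGroup.of e)⁻¹ _).trans ih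
  | bwd e _ ih =>
    rw [mul_inv_rev, inv_inv]
    exact (by simpa using Path.fwd (K := K) e .nil : K.Path _ (PresentedGroup.of e) _).trans ih

theorem mem_pi1 {v : X0} {g : K.Gam} : g ∈ K.pi1 v ↔ K.Path v g v := by
  refine ⟨fun h => ?_, fun h => Subgroup.subset_closure h⟩
  induction h using Subgroup.closure_induction with
  | mem x hx => exact hx
  | one => exact .nil
  | mul a b _ _ ha hb => exact ha.trans hb
  | inv a _ ha => exact ha.symm

variable (K)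

theorem exists_path (v w : X0) : ∃ g, K.Path v g w := by
  induction K.cyc v w with
  | refl => exact ⟨1, .nil⟩
  | tail _ k ih =>
    obtain ⟨e, rfl, rfl⟩ := k
    obtain ⟨g, h⟩ := ih
    exact ⟨_, .fwd e h⟩

/-- a chosen path to every vertex -/
noncomputable def tr (v w : X0) : K.Gam := (K.exists_path v w).choose

theorem tr_path (v w : X0) : K.Path v (K.tr v w) w := (K.exists_path v w).choose_spec

/-- the closed path attached to a path -/
noncomputable def cl {v w : X0} {g : K.Gam} (h : K.Path v g w) : K.pi1 v :=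
  ⟨g * (K.tr v w)⁻¹, mem_pi1.2 (h.trans (K.tr_path v w).symm)⟩

/-- the universal cocycle -/
noncomputable def co (v : X0) (e : X1) : K.pi1 v := K.cl (.fwd e (K.tr_path v (K.d1 e 1)))

theorem rel (f : X2) : (PresentedGroup.of (K.d2 f 1) : K.Gam) =
    PresentedGroup.of (K.d2 f 2) * PresentedGroup.of (K.d2 f 0) := by
  have := PresentedGroup.one_of_mem (rels := K.rels) ⟨f, rfl⟩
  rw [map_mul, map_mul, map_inv, mul_inv_eq_one] at this
  exact this.symm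

theorem co_coc (v : X0) : K.Coc (K.co v) := fun f => Subtype.ext (by
  simp only [co, cl, Subgroup.coe_mul, K.rel f, K.va, K.vb, K.vc]
  group)

theorem cl_fwd {v : X0} {g : K.Gam} (e : X1) (h : K.Path v g (K.d1 e 1)) :
    K.cl (.fwd e h) = K.cl h * K.co v e := Subtype.ext (by
  simp only [co, cl, Subgroup.coe_mul]
  group)

theorem cl_tr {v : X0} (p : Lift (K.pi1 v) X0) :
    ∃ h : K.Path v (p.g * K.tr v p.x) p.x, K.cl h = p.g :=
  ⟨(mem_pi1.1 p.g.2).trans (K.tr_path v p.x), Subtype.ext (mul_inv_cancel_right _ _)⟩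

theorem co_conn (v : X0) (P : Lift (K.pi1 v) X0 → Prop)
    (hP : ∀ e i j, P (K.u1 (K.co v) e i) → P (K.u1 (K.co v) e j)) (u w) (h : P u) : P w := by
  have key : ∀ g w (k : K.Path v g w), P ⟨K.cl k, w⟩ ↔ P ⟨K.cl .nil, v⟩ := by
    have st : ∀ g e (k : K.Path v g (K.d1 e 1)),
        P ⟨K.cl (.fwd e k), K.d1 e 0⟩ ↔ P ⟨K.cl k, K.d1 e 1⟩ := fun g e k => by
      have h1 := hP ⟨K.cl k, e⟩ 0 1
      have h2 := hP ⟨K.cl k, e⟩ 1 0
      simp only [u1, sh1, if_true, one_ne_zero, if_false, mul_one, ← K.cl_fwd] at h1 h2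
      exact ⟨h1, h2⟩
    intro g w k
    induction k with
    | nil => rfl
    | fwd e k ih => exact (st _ e k).trans ih
    | bwd e k ih =>
      refine (st _ e (.bwd e k)).symm.trans (Iff.trans ?_ ih)
      simp only [cl, inv_mul_cancel_right]
  obtain ⟨k1, e1⟩ := K.cl_tr u
  obtain ⟨k2, e2⟩ := K.cl_tr w
  have h1 := key _ _ k1
  have h2 := key _ _ k2
  rw [e1] at h1
  rw [e2] at h2
  exact h2.2 (h1.1 h)

theorem co_sc (v : X0) (Γ : Type) [Group Γ] (z : Lift (K.pi1 v) X1 → Γ)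
    (h : ∀ f, z (K.u2 (K.co v) f 1) = z (K.u2 (K.co v) f 2) * z (K.u2 (K.co v) f 0)) :
    ∃ s : Lift (K.pi1 v) X0 → Γ, ∀ e,
      z e = s (K.u1 (K.co v) e 1) * (s (K.u1 (K.co v) e 0))⁻¹ := by
  classical
  let y : K.Gam → X1 → Γ := fun g e =>
    if k : K.Path v g (K.d1 e 1) then z ⟨K.cl k, e⟩ else 1
  have hy : ∀ g f, y g (K.d2 f 1) =
      y g (K.d2 f 2) * y (g * PresentedGroup.of (K.d2 f 2)) (K.d2 f 0) := by
    intro g f
    by_cases k : K.Path v g (K.d1 (K.d2 f 2) 1)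
    · have k1 : K.Path v g (K.d1 (K.d2 f 1) 1) := K.va f ▸ k
      have k0 : K.Path v (g * PresentedGroup.of (K.d2 f 2)) (K.d1 (K.d2 f 0) 1) :=
        K.vb f ▸ .fwd _ k
      have e := h ⟨K.cl k, f⟩
      have e1 : K.cl k1 = K.cl k := Subtype.ext (by simp only [cl, K.va])
      have e0 : K.cl k0 = K.cl k * K.co v (K.d2 f 2) := by
        rw [← K.cl_fwd]; exact Subtype.ext (by simp only [cl, K.vb])
      simp only [y, dif_pos k, dif_pos k1, dif_pos k0, e1, e0]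
      simpa [u2, sh2] using e
    · have k1 : ¬ K.Path v g (K.d1 (K.d2 f 1) 1) := fun q => k (K.va f ▸ q)
      have k0 : ¬ K.Path v (g * PresentedGroup.of (K.d2 f 2)) (K.d1 (K.d2 f 0) 1) := fun q =>
        k (mul_inv_cancel_right g (PresentedGroup.of (K.d2 f 2)) ▸
          Path.bwd (K.d2 f 2) (K.vb f ▸ q))
      simp only [y, dif_neg k, dif_neg k1, dif_neg k0, mul_one]
  let R : X1 → Equiv.Perm (K.Gam × Γ) := fun e =>
    { toFun := fun p => (p.1 * PresentedGroup.of e, p.2 * y p.1 e)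
      invFun := fun p => (p.1 * (PresentedGroup.of e)⁻¹,
        p.2 * (y (p.1 * (PresentedGroup.of e)⁻¹) e)⁻¹)
      left_inv := fun p => by simp
      right_inv := fun p => by simp }
  have hR : ∀ f, R (K.d2 f 1) = R (K.d2 f 0) * R (K.d2 f 2) := fun f => by
    ext p
    · simp [R, K.rel f, mul_assoc]
    · simp [R, hy, mul_assoc]
  let ρ : K.Gam →* Equiv.Perm (K.Gam × Γ) := PresentedGroup.toGroup (f := fun e => (R e)⁻¹) (by
    rintro r ⟨f, rfl⟩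
    simp only [map_mul, map_inv, FreeGroup.lift_apply_of, hR]
    group)
  let S : K.Gam → K.Gam × Γ := fun g => (ρ g)⁻¹ (1, 1)
  have hS : ∀ g e, S (g * PresentedGroup.of e) = R e (S g) := fun g e => by
    have : ρ (PresentedGroup.of e) = (R e)⁻¹ := PresentedGroup.toGroup.of _
    simp only [S, map_mul, this, mul_inv_rev, inv_inv, Equiv.Perm.mul_apply]
  have h1 : ∀ g w, K.Path v g w → (S g).1 = g := by
    intro g w k
    induction k with
    | nil => simp only [S, map_one, inv_one, Equiv.Perm.one_apply]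
    | fwd e _ ih => rw [hS, ← ih]; simp [R, ih]
    | @bwd g e _ ih =>
      have := hS (g * (PresentedGroup.of e)⁻¹) e
      rw [inv_mul_cancel_right] at this
      rw [this] at ih
      exact eq_mul_inv_of_mul_eq ih
  refine ⟨fun p => (S (p.g * K.tr v p.x)).2⁻¹, fun e => ?_⟩
  obtain ⟨k, hk⟩ := K.cl_tr ⟨e.g, K.d1 e.x 1⟩
  have e0 : ((e.g * K.co v e.x : K.pi1 v) : K.Gam) * K.tr v (K.d1 e.x 0) =
      (e.g : K.Gam) * K.tr v (K.d1 e.x 1) * PresentedGroup.of e.x := by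
    simp only [co, cl, Subgroup.coe_mul]
    group
  have e1 : y (e.g * K.tr v (K.d1 e.x 1)) e.x = z e := by
    simp only [y, dif_pos k]
    exact congrArg z (Lift.ext hk rfl)
  simp only [u1, sh1, if_true, one_ne_zero, if_false, mul_one, e0, hS, R, Equiv.coe_fn_mk,
    h1 _ _ k, e1]
  group

variable {G : Type} [Group G] {v : X0} (i : G ≃* K.pi1 v)

/-- the universal cocycle with values in a copy of the edge-path group -/
noncomputable def ci (e : X1) : G := i.symm (K.co v e)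

theorem ci_coc : K.Coc (K.ci i) := fun f => by simp only [ci, K.co_coc v f, map_mul]

/-- change of the group coordinate -/
def _root_.Pool.Agent.Work.MP_3d425c_gt.Dn.Lift.mp {G H X : Type} (j : G → H) (p : Lift G X) :
    Lift H X := ⟨j p.g, p.x⟩

theorem ci_u1 (e k) : K.u1 (K.ci i) (e.mp i.symm) k = (K.u1 (K.co v) e k).mp i.symm :=
  Lift.ext (by simp only [u1, sh1, Lift.mp, map_mul, ci]; split_ifs <;> simp) rfl

theorem ci_u2 (e k) : K.u2 (K.ci i) (e.mp i.symm) k = (K.u2 (K.co v) e k).mp i.symm :=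
  Lift.ext (by simp only [u2, sh2, Lift.mp, map_mul, ci]; split_ifs <;> simp) rfl

theorem ci_mp {X : Type} (p : Lift G X) : (p.mp i).mp i.symm = p :=
  Lift.ext (i.symm_apply_apply _) rfl

theorem ci_mp' {X : Type} (p : Lift (K.pi1 v) X) : (p.mp i.symm).mp i = p :=
  Lift.ext (i.apply_symm_apply _) rfl

theorem ci_conn (P : Lift G X0 → Prop)
    (hP : ∀ e k l, P (K.u1 (K.ci i) e k) → P (K.u1 (K.ci i) e l)) (u w) (h : P u) : P w := by
  have := K.co_conn v (fun p => P (p.mp i.symm)) (fun e k l h => by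
    rw [← K.ci_u1] at h ⊢
    exact hP _ k l h) (u.mp i) (w.mp i)
  rw [K.ci_mp, K.ci_mp] at this
  exact this h

theorem ci_sc (Γ : Type) [Group Γ] (z : Lift G X1 → Γ)
    (h : ∀ f, z (K.u2 (K.ci i) f 1) = z (K.u2 (K.ci i) f 2) * z (K.u2 (K.ci i) f 0)) :
    ∃ s : Lift G X0 → Γ, ∀ e, z e = s (K.u1 (K.ci i) e 1) * (s (K.u1 (K.ci i) e 0))⁻¹ := by
  obtain ⟨s, hs⟩ := K.co_sc v Γ (fun p => z (p.mp i.symm)) fun f => by
    simp only [← K.ci_u2, h]
  refine ⟨fun p => s (p.mp i), fun e => ?_⟩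
  have := hs (e.mp i)
  rw [K.ci_mp] at this
  rw [this, ← K.ci_mp i e]
  simp only [K.ci_u1, K.ci_mp']

/-- the universal cover -/
noncomputable def cover [Finite X3] : Tri G (Lift G X0) (Lift G X1) (Lift G X2) (Lift G X3) where
  d1 := K.u1 (K.ci i)
  d2 := K.u2 (K.ci i)
  d3 := K.u3 (K.ci i)
  e1 g e i := Lift.ext (mul_assoc _ _ _) rfl
  e2 g e i := Lift.ext (mul_assoc _ _ _) rfl
  e3 g e i := Lift.ext (mul_assoc _ _ _) rfl
  s2 := u_s2 (K.ci_coc i)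
  s3 := u_s3 (K.ci_coc i)
  free g p h := mul_eq_right.1 (congrArg Lift.g h)
  fin := Finite.of_surjective (fun x : X3 => Quotient.mk _ (⟨1, x⟩ : Lift G X3))
    fun q => Quotient.inductionOn q fun p => ⟨p.x, Quotient.sound
      ⟨p.g⁻¹, Lift.ext (inv_mul_cancel _) rfl⟩⟩
  ne := K.ne.map fun x => ⟨1, x⟩
  two := u_two
  conn := u_conn (K.ci_coc i) (K.ci_conn i)
  link := u_link (K.ci_coc i)
  equ := u_equ (K.ci_coc i)
  h1 z hz := by
    obtain ⟨s, hs⟩ := K.ci_sc i (Multiplicative ℝ) (fun e => Multiplicative.ofAdd (z e))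
      fun f => congrArg Multiplicative.ofAdd (hz f)
    refine ⟨fun p => -(s p).toAdd, fun e => ?_⟩
    have := congrArg Multiplicative.toAdd (hs e)
    simp only [toAdd_ofAdd, toAdd_mul, toAdd_inv] at this
    linarith

theorem cover_cyc [Finite X3] : (K.cover i).Cyc := u_cyc

theorem cover_disc [Finite X3] : Nv.Disc (K.cover i) :=
  ⟨K.ci_sc i, u_ul, u_ll (K.ci_coc i)⟩

theorem cover_fol [Finite X3] {φ : X2 → ℝ ≃o ℝ} (h : K.Flat φ) :
    (K.cover i).Fol fun f => φ f.x :=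
  ⟨⟨fun f => h.supp f.x, fun x => h.flat x.x⟩, fun _ _ => rfl⟩

end Pi

end Cx

end Pool.Agent.Work.MP_3d425c_gt.Dn
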