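import Mathlib

/-! Ordered triangulations, their edge-path groups and the foliations they carry. -/

namespace Pool.Agent.Work.MP_3d425c_gt.Dn
open Set Relation

/-- Vertices `X0`, edges `X1`, triangles `X2`, tetrahedra `X3`, each with ordered vertices;
`d1 d2 d3` omit the vertex with the given index. -/
structure Cx (X0 X1 X2 X3 : Type) where
  d1 : X1 → Fin 2 → X0
  d2 : X2 → Fin 3 → X1
  d3 : X3 → Fin 4 → X2
  s2 : ∀ f (i j : Fin 2), i ≤ j → d1 (d2 f j.succ) i = d1 (d2 f i.castSucc) j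
  s3 : ∀ x (i j : Fin 3), i ≤ j → d2 (d3 x j.succ) i = d2 (d3 x i.castSucc) j
  ne : Nonempty X3
  two : ∀ f, ∃ p q : X3 × Fin 4, p ≠ q ∧ ∀ r : X3 × Fin 4, d3 r.1 r.2 = f ↔ r = p ∨ r = q
  link : ∀ p q : X2 × Fin 3, d2 p.1 p.2 = d2 q.1 q.2 → EqvGen (fun p q => ∃ x, ∃ i j : Fin 3,
    i ≤ j ∧ p = (d3 x j.succ, i) ∧ q = (d3 x i.castSucc, j)) p q
  star : ∀ p q : X1 × Fin 2, d1 p.1 p.2 = d1 q.1 q.2 → EqvGen (fun p q => ∃ f, ∃ i j : Fin 2,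
    i ≤ j ∧ p = (d2 f j.succ, i) ∧ q = (d2 f i.castSucc, j)) p q
  equ : ∀ f f', d1 (d2 f 2) 0 = d1 (d2 f' 2) 0 → EqvGen (fun f f' => ∃ x,
    (f = d3 x 2 ∧ f' = d3 x 3) ∨ (f = d3 x 0 ∧ f' = d3 x 1)) f f'
  ul : ∀ (Γ : Type) [Group Γ] (c : X2 → Γ), (∀ x, c (d3 x 2) = c (d3 x 1) * c (d3 x 3)) →
    ∃ s : X1 → Γ, ∀ f, c f = s (d2 f 1) * (s (d2 f 2))⁻¹
  ll : ∀ (Γ : Type) [Group Γ] (c : X2 → Γ), (∀ x, c (d3 x 1) = c (d3 x 2) * c (d3 x 0)) →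
    ∃ s : X1 → Γ, ∀ f, c f = s (d2 f 1) * (s (d2 f 0))⁻¹
  cyc : ∀ u w, ReflTransGen (fun u w => ∃ e, d1 e 1 = u ∧ d1 e 0 = w) u w

variable {X0 X1 X2 X3 : Type} (K : Cx X0 X1 X2 X3)

/-- One relator `ab * bc * ac⁻¹` for every triangle `abc`. -/
def Cx.rels : Set (FreeGroup X1) := range fun f =>
  FreeGroup.of (K.d2 f 2) * FreeGroup.of (K.d2 f 0) * (FreeGroup.of (K.d2 f 1))⁻¹

/-- `g` is the word of an edge path from `u` to `w`. -/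
inductive Cx.Path (u : X0) : PresentedGroup K.rels → X0 → Prop
  | nil : Path u 1 u
  | fwd {g} (e) : Path u g (K.d1 e 1) → Path u (g * PresentedGroup.of e) (K.d1 e 0)
  | bwd {g} (e) : Path u g (K.d1 e 0) → Path u (g * (PresentedGroup.of e)⁻¹) (K.d1 e 1)

/-- The edge-path group at `v`. -/
def Cx.pi1 (v : X0) : Subgroup (PresentedGroup K.rels) := Subgroup.closure {g | K.Path v g v}

/-- In a triangle `abc` the leaves match the point `t` of `ac = [0,1]` with the point `2 φ t` of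
`ab + bc = [0,2]`; in a tetrahedron `abcd` the two ways from `ad` to `ab + bc + cd` agree. -/
structure Cx.Flat (φ : X2 → ℝ ≃o ℝ) : Prop where
  supp : ∀ f t, t ∉ Ioo (0 : ℝ) 1 → φ f t = t
  flat : ∀ x, ∀ s ∈ Icc (0 : ℝ) 1,
    (if 2 * φ (K.d3 x 2) s ≤ 1 then 2 * φ (K.d3 x 2) s
      else 1 + 2 * φ (K.d3 x 0) (2 * φ (K.d3 x 2) s - 1)) =
    if 2 * φ (K.d3 x 1) s ≤ 1 then 2 * φ (K.d3 x 3) (2 * φ (K.d3 x 1) s)
      else 2 * φ (K.d3 x 1) s + 1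

end Pool.Agent.Work.MP_3d425c_gt.Dn
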