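import Pool.Agent.Work.MP_3d425c_gt.Dn.Cover
import Pool.Agent.Work.MP_3d425c_gt.Ex.Helix

/-! An example: the one-vertex triangulation of sphere times circle with two tetrahedra. -/

namespace Pool.Agent.Work.MP_3d425c_gt.Dn
open Set Relation

def e2 (f : Fin 4) : Fin 3 → Fin 3 := ![![0, 0, 1, 0] f, ![1, 1, 2, 2] f, ![0, 0, 0, 1] f]
def e3 (x : Fin 2) : Fin 4 → Fin 4 := ![![0, 1] x, 3, 2, ![0, 1] x]

theorem ex_link (p : Fin 4 × Fin 3) : EqvGen (fun p q : Fin 4 × Fin 3 => ∃ x, ∃ i j : Fin 3,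
    i ≤ j ∧ p = (e3 x j.succ, i) ∧ q = (e3 x i.castSucc, j)) p
    (![2, 3, 3] (e2 p.1 p.2), ![2, 2, 1] (e2 p.1 p.2)) := by
  have h : ∀ (x : Fin 2) (i j : Fin 3), i ≤ j → EqvGen (fun p q : Fin 4 × Fin 3 => ∃ x,
      ∃ i j : Fin 3, i ≤ j ∧ p = (e3 x j.succ, i) ∧ q = (e3 x i.castSucc, j)) (e3 x j.succ, i)
      (e3 x i.castSucc, j) := fun x i j k => .rel _ _ ⟨x, i, j, k, rfl, rfl⟩
  obtain ⟨k, i⟩ := p
  fin_cases k <;> fin_cases i
  · exact .trans _ _ _ (h 0 0 2 (by decide)) (h 0 2 2 le_rfl)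
  · exact h 0 1 2 (by decide)
  · exact h 0 2 2 le_rfl
  · exact .trans _ _ _ (h 1 0 2 (by decide)) (h 1 2 2 le_rfl)
  · exact h 1 1 2 (by decide)
  · exact h 1 2 2 le_rfl
  · exact .trans _ _ _ (h 0 0 1 (by decide)) (h 0 1 2 (by decide))
  · exact h 0 1 1 le_rfl
  · exact .refl _
  · exact EqvGen.trans _ _ _ (h 0 0 0 le_rfl)
      (.trans _ _ _ (h 0 0 2 (by decide)) (h 0 2 2 le_rfl))
  · exact .refl _
  · exact .refl _

theorem ex_star (p : Fin 3 × Fin 2) : EqvGen (fun p q : Fin 3 × Fin 2 => ∃ f, ∃ i j : Fin 2,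
    i ≤ j ∧ p = (e2 f j.succ, i) ∧ q = (e2 f i.castSucc, j)) p (0, 1) := by
  have h : ∀ (f : Fin 4) (i j : Fin 2), i ≤ j → EqvGen (fun p q : Fin 3 × Fin 2 => ∃ f,
      ∃ i j : Fin 2, i ≤ j ∧ p = (e2 f j.succ, i) ∧ q = (e2 f i.castSucc, j)) (e2 f j.succ, i)
      (e2 f i.castSucc, j) := fun x i j k => .rel _ _ ⟨x, i, j, k, rfl, rfl⟩
  obtain ⟨k, i⟩ := p
  fin_cases k <;> fin_cases i
  · exact h 0 0 1 (by decide)
  · exact .refl _
  · exact .trans _ _ _ (h 0 0 0 le_rfl) (h 0 0 1 (by decide))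
  · exact (h 0 1 1 le_rfl).symm
  · exact .trans _ _ _ (h 3 0 0 le_rfl) (h 0 0 1 (by decide))
  · exact (h 2 1 1 le_rfl).symm

theorem ex_equ (f : Fin 4) : EqvGen (fun f f' => ∃ x,
    (f = e3 x 2 ∧ f' = e3 x 3) ∨ (f = e3 x 0 ∧ f' = e3 x 1)) f 2 := by
  have h : ∀ x : Fin 2, EqvGen (fun f f' => ∃ x,
      (f = e3 x 2 ∧ f' = e3 x 3) ∨ (f = e3 x 0 ∧ f' = e3 x 1)) (e3 x 3) (e3 x 2) :=
    fun x => .symm _ _ (.rel _ _ ⟨x, .inl ⟨rfl, rfl⟩⟩)
  fin_cases f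
  · exact h 0
  · exact h 1
  · exact .refl _
  · exact .trans _ _ _ (.symm _ _ (.rel _ _ ⟨0, .inr ⟨rfl, rfl⟩⟩)) (h 0)

/-- Sphere times circle. -/
def exK : Cx Unit (Fin 3) (Fin 4) (Fin 2) where
  d1 _ _ := ()
  d2 := e2
  d3 := e3
  s2 _ _ _ _ := rfl
  s3 := by decide
  ne := ⟨0⟩
  two := by decide
  link p q h := .trans _ _ _ (ex_link p) (h ▸ (ex_link q).symm)
  star p q _ := .trans _ _ _ (ex_star p) (ex_star q).symm
  equ f f' _ := .trans _ _ _ (ex_equ f) (ex_equ f').symm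
  ul Γ _ c hc := by
    refine ⟨![1, c 0, c 2], fun k => ?_⟩
    have h0 : c 2 = c 3 * c 0 := hc 0
    have h1 : c 2 = c 3 * c 1 := hc 1
    fin_cases k
    · show c 0 = c 0 * 1⁻¹
      simp
    · show c 1 = c 0 * 1⁻¹
      simpa using mul_left_cancel (h1.symm.trans h0)
    · show c 2 = c 2 * 1⁻¹
      simp
    · show c 3 = c 2 * (c 0)⁻¹
      rw [h0, mul_inv_cancel_right]
  ll Γ _ c hc := by
    refine ⟨![1, c 0, c 3], fun k => ?_⟩
    have h0 : c 3 = c 2 * c 0 := hc 0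
    have h1 : c 3 = c 2 * c 1 := hc 1
    fin_cases k
    · show c 0 = c 0 * 1⁻¹
      simp
    · show c 1 = c 0 * 1⁻¹
      simpa using mul_left_cancel (h1.symm.trans h0)
    · show c 2 = c 3 * (c 0)⁻¹
      rw [h0, mul_inv_cancel_right]
    · show c 3 = c 3 * 1⁻¹
      simp
  cyc _ _ := .refl

theorem exK_pow (a : exK.Gam) : ∃ n : ℤ, PresentedGroup.of 0 ^ n = a := by
  have h1 : (PresentedGroup.of 1 : exK.Gam) = PresentedGroup.of 0 * PresentedGroup.of 0 :=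
    exK.rel 0
  have h2 : (PresentedGroup.of 2 : exK.Gam) = PresentedGroup.of 0 * PresentedGroup.of 1 :=
    exK.rel 2
  have h0 : (PresentedGroup.of 0 : exK.Gam) ∈ Subgroup.zpowers (PresentedGroup.of 0) :=
    Subgroup.mem_zpowers _
  refine PresentedGroup.generated_by _ (Subgroup.zpowers (PresentedGroup.of 0)) (fun j => ?_) a
  fin_cases j
  · exact h0
  · exact h1 ▸ mul_mem h0 h0
  · exact h2 ▸ mul_mem h0 (h1 ▸ mul_mem h0 h0)

theorem exK_tf (a : exK.Gam) (h : IsOfFinOrder a) : a = 1 := by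
  let χ : exK.Gam →* Multiplicative ℤ := PresentedGroup.toGroup
    (f := fun e : Fin 3 => Multiplicative.ofAdd ((e : ℤ) + 1)) (by
      rintro r ⟨f, rfl⟩
      simp only [map_mul, map_inv, FreeGroup.lift_apply_of]
      revert f
      decide)
  obtain ⟨n, rfl⟩ := exK_pow a
  have h0 : χ (PresentedGroup.of 0) = Multiplicative.ofAdd 1 := PresentedGroup.toGroup.of _
  have h1 := (χ.isOfFinOrder h).eq_one'
  rw [map_zpow, h0, ← ofAdd_zsmul] at h1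
  obtain rfl : n = 0 := by simpa using h1
  exact zpow_zero _

theorem exK_flat : exK.Flat ![OrderIso.refl ℝ, OrderIso.refl ℝ, OrderIso.refl ℝ, Ex.pl] :=
  ⟨fun f => Ex.ex_fol.1.supp ⟨0, f⟩, fun x s hs => by
    have := Ex.ex_fol.1.flat ⟨0, x⟩ s hs
    fin_cases x <;> exact this⟩

/-- All hypotheses hold together. -/
theorem nonvac : ∃ (K : Cx Unit (Fin 3) (Fin 4) (Fin 2)),
    (∀ a : K.pi1 (), a ≠ 1 → ¬ IsOfFinOrder a) ∧ IsCyclic (K.pi1 ()) ∧ ∃ φ, K.Flat φ := by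
  have : IsCyclic exK.Gam := ⟨⟨PresentedGroup.of 0, exK_pow⟩⟩
  exact ⟨exK, fun a ha k => ha (Subtype.ext (exK_tf a ((exK.pi1 ()).subtype.isOfFinOrder k))),
    inferInstance, _, exK_flat⟩

end Pool.Agent.Work.MP_3d425c_gt.Dn
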