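import Pool.Agent.Work.MP_3d425c_gt.Dn.Cover
import Pool.Agent.Work.MP_3d425c_gt.Nv.Main2

/-! The edge-path group of a finite triangulation that carries a foliation is left-orderable. -/

namespace Pool.Agent.Work.MP_3d425c_gt.Dn

theorem Cx.main {G X0 X1 X2 X3 : Type} [Group G] [Finite X3] (K : Cx X0 X1 X2 X3) (v : X0)
    (i : G ≃* K.pi1 v) (tf : ∀ a : G, a ≠ 1 → ¬ IsOfFinOrder a)
    (cent : ∀ a : G, a ≠ 1 → IsCyclic (Subgroup.centralizer ({a} : Set G)))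
    (big : ∀ E : Subgroup G, E.FG → IsCyclic E ∨ E.FiniteIndex ∨
      ∃ f : E →* Multiplicative (ℤ × ℤ), Function.Surjective f)
    (φ : X2 → ℝ ≃o ℝ) (hφ : K.Flat φ) :
    Nontrivial G ∧ ∃ r : G → G → Prop,
      IsStrictTotalOrder G r ∧ ∀ a b c, r a b ↔ r (c * a) (c * b) :=
  Nv.main2 (K.cover i) (K.cover_cyc i) (K.cover_disc i) ⟨tf, cent⟩ big ⟨_, K.cover_fol i hφ⟩

end Pool.Agent.Work.MP_3d425c_gt.Dn
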